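import Pool.Agent.Helper92.Ru.GoalsV

/-!
# P12: at every place at most `n` of the proximities are large
-/

set_option autoImplicit false

open NumberField

namespace Pool.Agent.Helper88.Ru

open Pool.Agent.Helper92.Ru

/-- inverse matrix of `n + 1` linear forms in general position -/
theorem inv_forms {k : Type} [Field k] {n q : ℕ} (a : Fin q → Fin (n + 1) → k) (hGP : GP a)
    (s : Finset (Fin q)) (hs : s.card = n + 1) :
    ∃ B : Fin (n + 1) → Fin q → k, ∀ t j, ∑ i ∈ s, B t i * a i j = if j = t then 1 else 0 := by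
  classical
  have hli := hGP s hs.le
  have hcard : Fintype.card s = Module.finrank k (Fin (n + 1) → k) := by
    rw [Fintype.card_coe, hs, Module.finrank_fin_fun]
  have hspan := hli.span_eq_top_of_card_eq_finrank' hcard
  have hex : ∀ t : Fin (n + 1), ∃ c : s → k, ∑ i, c i • a i = Pi.single t 1 := by
    intro t
    have hmem : (Pi.single t 1 : Fin (n + 1) → k) ∈ Submodule.span k
        (Set.range (fun i : s => a i)) := by
      rw [hspan]
      exact Submodule.mem_top
    exact (Submodule.mem_span_range_iff_exists_fun k).1 hmem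
  choose c hc using hex
  refine ⟨fun t i => if h : i ∈ s then c t ⟨i, h⟩ else 0, ?_⟩
  intro t j
  have h1 := congrFun (hc t) j
  rw [Finset.sum_apply] at h1
  rw [Pi.single_apply] at h1
  rw [← h1, ← Finset.sum_coe_sort s]
  apply Finset.sum_congr rfl
  intro i _
  simp

/-- the abstract estimate -/
theorem few_abs {k L : Type} [Field k] [Field L] [Algebra k L] {n q : ℕ}
    (a : Fin q → Fin (n + 1) → k) (s : Finset (Fin q)) (hs : s.card = n + 1)
    (B : Fin (n + 1) → Fin q → k)
    (hB : ∀ t j, ∑ i ∈ s, B t i * a i j = if j = t then 1 else 0)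
    (f : AbsoluteValue L ℝ) (M : ℝ) (hM : 1 ≤ M)
    (hMB : ∀ t i, f (algebraMap k L (B t i)) ≤ M) (hMa : ∀ i j, f (algebraMap k L (a i j)) ≤ M)
    (x : Fin (n + 1) → L) (hl : ∀ i, ∑ j, algebraMap k L (a i j) * x j ≠ 0) :
    ∃ i ∈ s, Real.log ((⨆ j, f (x j)) * (⨆ j, f (algebraMap k L (a i j))) /
      f (∑ j, algebraMap k L (a i j) * x j)) ≤ Real.log ((n + 1) * M * M) := by
  classical
  have hne : s.Nonempty := by
    rw [← Finset.card_pos, hs]
    omega
  obtain ⟨i0, hi0, hmax⟩ := Finset.exists_max_image s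
    (fun i => f (∑ j, algebraMap k L (a i j) * x j)) hne
  refine ⟨i0, hi0, ?_⟩
  set l : Fin q → L := fun i => ∑ j, algebraMap k L (a i j) * x j with hldef
  have hx : ∀ t, x t = ∑ i ∈ s, algebraMap k L (B t i) * l i := by
    intro t
    have e1 : ∑ i ∈ s, algebraMap k L (B t i) * l i
        = ∑ j, (∑ i ∈ s, algebraMap k L (B t i) * algebraMap k L (a i j)) * x j := by
      rw [hldef]
      simp only [Finset.mul_sum, Finset.sum_mul]
      rw [Finset.sum_comm]
      apply Finset.sum_congr rfl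
      intro j _
      apply Finset.sum_congr rfl
      intro i _
      ring
    have e2 : ∀ j, (∑ i ∈ s, algebraMap k L (B t i) * algebraMap k L (a i j))
        = if j = t then 1 else 0 := by
      intro j
      have := congrArg (algebraMap k L) (hB t j)
      rw [map_sum] at this
      simp only [map_mul] at this
      rw [this]
      split_ifs <;> simp
    rw [e1]
    simp only [e2]
    simp
  have hlpos : 0 < f (l i0) := f.pos (hl i0)
  have hM0 : 0 ≤ M := by linarith
  have hxt : ∀ t, f (x t) ≤ (n + 1) * M * f (l i0) := by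
    intro t
    rw [hx t]
    refine (f.sum_le _ _).trans ?_
    calc ∑ i ∈ s, f (algebraMap k L (B t i) * l i)
        ≤ ∑ i ∈ s, M * f (l i0) := by
          apply Finset.sum_le_sum
          intro i hi
          rw [f.map_mul]
          exact mul_le_mul (hMB t i) (hmax i hi) (f.nonneg _) hM0
      _ = (n + 1) * M * f (l i0) := by
          rw [Finset.sum_const, hs, nsmul_eq_mul]
          push_cast
          ring
  have hsx : (⨆ j, f (x j)) ≤ (n + 1) * M * f (l i0) := ciSup_le hxt
  have hsa : (⨆ j, f (algebraMap k L (a i0 j))) ≤ M := ciSup_le (hMa i0)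
  have hsx0 : 0 ≤ (⨆ j, f (x j)) := Real.iSup_nonneg (fun _ => f.nonneg _)
  have hsa0 : 0 ≤ (⨆ j, f (algebraMap k L (a i0 j))) := Real.iSup_nonneg (fun _ => f.nonneg _)
  have hbig : 1 ≤ (n + 1) * M * M := by
    have h1 : (1 : ℝ) ≤ (n : ℝ) + 1 := by
      have : (0 : ℝ) ≤ n := Nat.cast_nonneg n
      linarith
    have h2 : 1 ≤ ((n : ℝ) + 1) * M := by nlinarith
    nlinarith
  have harg : (⨆ j, f (x j)) * (⨆ j, f (algebraMap k L (a i0 j))) / f (l i0)
      ≤ (n + 1) * M * M := by
    rw [div_le_iff₀ hlpos]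
    calc (⨆ j, f (x j)) * (⨆ j, f (algebraMap k L (a i0 j)))
        ≤ ((n + 1) * M * f (l i0)) * M := mul_le_mul hsx hsa hsa0
          (by positivity)
      _ = (n + 1) * M * M * f (l i0) := by ring
  have harg0 : 0 ≤ (⨆ j, f (x j)) * (⨆ j, f (algebraMap k L (a i0 j))) / f (l i0) :=
    div_nonneg (mul_nonneg hsx0 hsa0) hlpos.le
  rcases harg0.eq_or_lt with h | h
  · rw [← h, Real.log_zero]
    exact Real.log_nonneg hbig
  · exact Real.log_le_log h harg

theorem prFew (hP : PlPow) : PrFew := by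
  intro k _ _ T n q d a hGP
  classical
  -- the inverse matrices
  have hex : ∀ s : Finset (Fin q), ∃ B : Fin (n + 1) → Fin q → k, s.card = n + 1 →
      ∀ t j, ∑ i ∈ s, B t i * a i j = if j = t then 1 else 0 := by
    intro s
    by_cases hs : s.card = n + 1
    · obtain ⟨B, hB⟩ := inv_forms a hGP s hs
      exact ⟨B, fun _ => hB⟩
    · exact ⟨fun _ _ => 0, fun h => absurd h hs⟩
  choose B hB using hex
  set Mb : k → ℝ := fun c => ∑ v : InfinitePlace k, v c + ∑ v ∈ T, (1 + v c) ^ d with hMb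
  have hI0 : ∀ (v : InfinitePlace k) (c : k), 0 ≤ v c := fun v c => v.1.nonneg c
  have hF0 : ∀ (v : FinitePlace k) (c : k), 0 ≤ v c := fun v c => v.1.nonneg c
  have hMb0 : ∀ c, 0 ≤ Mb c := by
    intro c
    rw [hMb]
    apply add_nonneg
    · exact Finset.sum_nonneg (fun v _ => hI0 v c)
    · exact Finset.sum_nonneg (fun v _ => pow_nonneg (by linarith [hF0 v c]) _)
  set M : ℝ := 1 + ∑ s : Finset (Fin q), ∑ t, ∑ i, Mb (B s t i) + ∑ i, ∑ j, Mb (a i j) with hM
  have hS1 : 0 ≤ ∑ s : Finset (Fin q), ∑ t, ∑ i, Mb (B s t i) :=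
    Finset.sum_nonneg (fun _ _ => Finset.sum_nonneg (fun _ _ => Finset.sum_nonneg
      (fun _ _ => hMb0 _)))
  have hS2 : 0 ≤ ∑ i, ∑ j, Mb (a i j) :=
    Finset.sum_nonneg (fun _ _ => Finset.sum_nonneg (fun _ _ => hMb0 _))
  have hM1 : 1 ≤ M := by rw [hM]; linarith
  have hMB : ∀ s t i, Mb (B s t i) ≤ M := by
    intro s t i
    have h1 : Mb (B s t i) ≤ ∑ i, Mb (B s t i) :=
      Finset.single_le_sum (f := fun i => Mb (B s t i)) (fun _ _ => hMb0 _) (Finset.mem_univ i)
    have h2 : ∑ i, Mb (B s t i) ≤ ∑ t, ∑ i, Mb (B s t i) :=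
      Finset.single_le_sum (f := fun t => ∑ i, Mb (B s t i))
        (fun _ _ => Finset.sum_nonneg (fun _ _ => hMb0 _)) (Finset.mem_univ t)
    have h3 : ∑ t, ∑ i, Mb (B s t i) ≤ ∑ s : Finset (Fin q), ∑ t, ∑ i, Mb (B s t i) :=
      Finset.single_le_sum (f := fun s => ∑ t, ∑ i, Mb (B s t i))
        (fun _ _ => Finset.sum_nonneg (fun _ _ => Finset.sum_nonneg (fun _ _ => hMb0 _)))
        (Finset.mem_univ s)
    rw [hM]
    linarith
  have hMA : ∀ i j, Mb (a i j) ≤ M := by
    intro i j
    have h1 : Mb (a i j) ≤ ∑ j, Mb (a i j) :=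
      Finset.single_le_sum (f := fun j => Mb (a i j)) (fun _ _ => hMb0 _) (Finset.mem_univ j)
    have h2 : ∑ j, Mb (a i j) ≤ ∑ i, ∑ j, Mb (a i j) :=
      Finset.single_le_sum (f := fun i => ∑ j, Mb (a i j))
        (fun _ _ => Finset.sum_nonneg (fun _ _ => hMb0 _)) (Finset.mem_univ i)
    rw [hM]
    linarith
  have hbig : 1 ≤ ((n : ℝ) + 1) * M * M := by
    have h1 : (1 : ℝ) ≤ (n : ℝ) + 1 := by
      have : (0 : ℝ) ≤ n := Nat.cast_nonneg n
      linarith
    have h2 : 1 ≤ ((n : ℝ) + 1) * M := by nlinarith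
    nlinarith
  refine ⟨Real.log ((n + 1) * M * M) + 1, by linarith [Real.log_nonneg hbig], ?_⟩
  intro L _ _ _ hd x hx hl
  constructor
  · intro w s hsC
    by_contra hcon
    push Not at hcon
    obtain ⟨s', hs', hcard⟩ := Finset.exists_subset_card_eq (show n + 1 ≤ s.card from hcon)
    have hbound : ∀ c : k, w (algebraMap k L c) ≤ Mb c := by
      intro c
      have e1 : w (algebraMap k L c) = (w.comap (algebraMap k L)) c :=
        (InfinitePlace.comap_apply w (algebraMap k L) c).symm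
      rw [e1, hMb]
      have h1 : (w.comap (algebraMap k L)) c ≤ ∑ v : InfinitePlace k, v c :=
        Finset.single_le_sum (f := fun v : InfinitePlace k => v c) (fun v _ => hI0 v c)
          (Finset.mem_univ _)
      have h2 : 0 ≤ ∑ v ∈ T, (1 + v c) ^ d :=
        Finset.sum_nonneg (fun v _ => pow_nonneg (by linarith [hF0 v c]) _)
      linarith
    obtain ⟨i, hi, hle⟩ := few_abs a s' hcard (B s') (hB s' hcard) w.1 M hM1
      (fun t i => (hbound _).trans (hMB s' t i)) (fun i j => (hbound _).trans (hMA i j)) x hl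
    have h1 := hsC i (hs' hi)
    have h2 : prI (a i) x w ≤ Real.log ((n + 1) * M * M) := hle
    linarith
  · intro w hw s hsC
    by_contra hcon
    push Not at hcon
    obtain ⟨v, hvT, hvw⟩ := hw
    obtain ⟨s', hs', hcard⟩ := Finset.exists_subset_card_eq (show n + 1 ≤ s.card from hcon)
    obtain ⟨⟨e, he1, hed, hew⟩, -⟩ := hP k L v w hvw
    have hbound : ∀ c : k, w (algebraMap k L c) ≤ Mb c := by
      intro c
      rw [hew c, hMb]
      have h1 : v c ^ e ≤ (1 + v c) ^ d := by
        calc v c ^ e ≤ (1 + v c) ^ e := pow_le_pow_left₀ (hF0 v c) (by linarith) e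
          _ ≤ (1 + v c) ^ d := pow_le_pow_right₀ (by linarith [hF0 v c]) (by rw [← hd]; exact hed)
      have h2 : (1 + v c) ^ d ≤ ∑ v ∈ T, (1 + v c) ^ d :=
        Finset.single_le_sum (f := fun v : FinitePlace k => (1 + v c) ^ d)
          (fun v _ => pow_nonneg (by linarith [hF0 v c]) _) hvT
      have h3 : 0 ≤ ∑ v : InfinitePlace k, v c := Finset.sum_nonneg (fun v _ => hI0 v c)
      linarith
    obtain ⟨i, hi, hle⟩ := few_abs a s' hcard (B s') (hB s' hcard) w.1 M hM1
      (fun t i => (hbound _).trans (hMB s' t i)) (fun i j => (hbound _).trans (hMA i j)) x hl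
    have h1 := hsC i (hs' hi)
    have h2 : prF (a i) x w ≤ Real.log ((n + 1) * M * M) := hle
    linarith

end Pool.Agent.Helper88.Ru
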